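import Pool.Agent.W181.WH.Stm

set_option autoImplicit false

open MeasureTheory

namespace Pool.Agent.W918.WH

open Pool.Agent.W181.WH

theorem fderiv_apply {n : ℕ} {F : (Fin n → ℝ) → ℂ} (hF : ContDiff ℝ (⊤ : ℕ∞) F)
    (v : Fin n → ℝ) (x : Fin n → ℝ) (w : Fin n → ℝ) :
    fderiv ℝ (fun y => fderiv ℝ F y v) x w = fderiv ℝ (fderiv ℝ F) x w v := by
  have h1 : DifferentiableAt ℝ (fderiv ℝ F) x :=
    ((hF.fderiv_right (m := (⊤ : ℕ∞)) (by simp)).differentiable (by simp)) x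
  have h2 := ((ContinuousLinearMap.apply ℝ ℂ v).hasFDerivAt (x := fderiv ℝ F x)).comp x
    h1.hasFDerivAt
  have h3 : fderiv ℝ (fun y => fderiv ℝ F y v) x =
      (ContinuousLinearMap.apply ℝ ℂ v).comp (fderiv ℝ (fderiv ℝ F) x) := h2.fderiv
  rw [h3]
  rfl

theorem pd_comm {n : ℕ} {F : (Fin n → ℝ) → ℂ} (hF : ContDiff ℝ (⊤ : ℕ∞) F) (i j : Fin n) :
    pd i (pd j F) = pd j (pd i F) := by
  funext x
  have hs : IsSymmSndFDerivAt ℝ F x :=
    hF.contDiffAt.isSymmSndFDerivAt (by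
      rw [minSmoothness_of_isRCLikeNormedField]
      exact WithTop.coe_le_coe.mpr (le_top : (2 : ℕ∞) ≤ ⊤))
  change fderiv ℝ (fun y => fderiv ℝ F y (Pi.single j 1)) x (Pi.single i 1) =
    fderiv ℝ (fun y => fderiv ℝ F y (Pi.single i 1)) x (Pi.single j 1)
  rw [fderiv_apply hF, fderiv_apply hF]
  exact hs _ _

theorem pdL_comm {n : ℕ} (i j : Fin n) : pdL i * pdL j = pdL j * pdL i := by
  apply LinearMap.ext
  intro F
  apply Subtype.ext
  exact pd_comm F.2 i j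

/-- the function `∏ (π² exp (2 ξ_j))^(S_j)` -/
noncomputable def gS {N : ℕ} (S : Fin N → ℕ) (ξ : Fin N → ℝ) : ℂ :=
  ∏ j, ((Real.pi ^ 2 * Real.exp (2 * ξ j) : ℝ) : ℂ) ^ (S j)

theorem contDiff_gS {N : ℕ} (S : Fin N → ℕ) : ContDiff ℝ (⊤ : ℕ∞) (gS S) := by
  unfold gS
  refine contDiff_prod fun j _ => ContDiff.pow ?_ _
  have h : ContDiff ℝ (⊤ : ℕ∞) (fun x : Fin N → ℝ => Real.pi ^ 2 * Real.exp (2 * x j)) := by
    fun_prop
  exact Complex.ofRealCLM.contDiff.comp h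

theorem gS_line {N : ℕ} (S : Fin N → ℕ) (ξ : Fin N → ℝ) (j : Fin N) (t : ℝ) :
    gS S (ξ + t • Pi.single j 1) = gS S ξ * Complex.exp ((2 * (S j : ℂ)) * (t : ℂ)) := by
  classical
  unfold gS
  have h1 : ∀ i : Fin N, ((Real.pi ^ 2 * Real.exp (2 * (ξ + t • (Pi.single j 1 : Fin N → ℝ)) i) : ℝ) : ℂ) ^ (S i) =
      ((Real.pi ^ 2 * Real.exp (2 * ξ i) : ℝ) : ℂ) ^ (S i) *
        (if i = j then Complex.exp ((2 * (S j : ℂ)) * (t : ℂ)) else 1) := by
    intro i
    by_cases hij : i = j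
    · subst hij
      rw [if_pos rfl]
      simp only [Pi.add_apply, Pi.smul_apply, Pi.single_eq_same, smul_eq_mul, mul_one]
      rw [mul_add, Real.exp_add, ← mul_assoc, Complex.ofReal_mul (_ * _), mul_pow]
      congr 1
      rw [Complex.ofReal_exp, ← Complex.exp_nat_mul]
      congr 1
      push_cast
      ring
    · rw [if_neg hij, mul_one]
      simp [Pi.single_eq_of_ne hij]
  rw [Finset.prod_congr rfl fun i _ => h1 i, Finset.prod_mul_distrib]
  congr 1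
  rw [Finset.prod_ite_eq' Finset.univ j]
  simp

theorem pd_gS {N : ℕ} (S : Fin N → ℕ) (j : Fin N) (ξ : Fin N → ℝ) :
    fderiv ℝ (gS S) ξ (Pi.single j 1) = 2 * (S j : ℂ) * gS S ξ := by
  have h1 : DifferentiableAt ℝ (gS S) ξ := ((contDiff_gS S).differentiable (by simp)) ξ
  rw [← h1.lineDeriv_eq_fderiv]
  unfold lineDeriv
  have h2 : (fun t : ℝ => gS S (ξ + t • Pi.single j 1)) =
      fun t : ℝ => gS S ξ * Complex.exp ((2 * (S j : ℂ)) * (t : ℂ)) := by
    funext t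
    exact gS_line S ξ j t
  rw [h2]
  have h3 : HasDerivAt (fun t : ℝ => gS S ξ * Complex.exp ((2 * (S j : ℂ)) * (t : ℂ)))
      (gS S ξ * (Complex.exp ((2 * (S j : ℂ)) * ((0 : ℝ) : ℂ)) * ((2 * (S j : ℂ)) * 1))) 0 := by
    refine HasDerivAt.const_mul _ ?_
    have h4 : HasDerivAt (fun t : ℝ => ((2 * (S j : ℂ)) * (t : ℂ))) ((2 * (S j : ℂ)) * 1) 0 :=
      (Complex.ofRealCLM.hasDerivAt).const_mul _
    exact h4.cexp
  rw [h3.deriv]
  simp
  ring

/-- `-½ ∂/∂ξ_j` -/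
noncomputable def DD {N : ℕ} (j : Fin N) : Module.End ℂ (Sm N) := (-(1 / 2) : ℂ) • pdL j

theorem DD_comm {N : ℕ} (i j : Fin N) : (DD i : Module.End ℂ (Sm N)) * DD j = DD j * DD i := by
  unfold DD
  rw [smul_mul_smul_comm, smul_mul_smul_comm, pdL_comm]

theorem DD_mul {N : ℕ} (S : Fin N → ℕ) (j : Fin N) :
    mulL (gS S) (contDiff_gS S) * DD j =
      (DD j + algebraMap ℂ _ (S j : ℂ)) * mulL (gS S) (contDiff_gS S) := by
  apply LinearMap.ext
  intro F
  apply Subtype.ext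
  funext ξ
  have hF : DifferentiableAt ℝ F.1 ξ :=
    ((show ContDiff ℝ (⊤ : ℕ∞) F.1 from F.2).differentiable (by simp)) ξ
  have hg : DifferentiableAt ℝ (gS S) ξ := ((contDiff_gS S).differentiable (by simp)) ξ
  change gS S ξ * (-(1 / 2) * fderiv ℝ F.1 ξ (Pi.single j 1)) =
    -(1 / 2) * fderiv ℝ (fun y => gS S y * F.1 y) ξ (Pi.single j 1) + (S j : ℂ) * (gS S ξ * F.1 ξ)
  have h1 : fderiv ℝ (fun y => gS S y * F.1 y) ξ (Pi.single j 1) =
      gS S ξ * fderiv ℝ F.1 ξ (Pi.single j 1) + F.1 ξ * fderiv ℝ (gS S) ξ (Pi.single j 1) := by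
    rw [fderiv_fun_mul hg hF]
    rfl
  rw [h1, pd_gS]
  ring

open scoped IsMulCommutative in
theorem exists_theta' {N : ℕ} {B : Type} [Ring B] [Algebra ℂ B] (D : Fin N → B)
    (hD : ∀ i j, D i * D j = D j * D i) : ∃ θ : MvPolynomial (Fin N) ℂ →ₐ[ℂ] B,
    ∀ j, θ (MvPolynomial.X j) = D j := by
  have hc : ∀ a ∈ Set.range D, ∀ b ∈ Set.range D, a * b = b * a := by
    rintro _ ⟨i, rfl⟩ _ ⟨j, rfl⟩
    exact hD i j
  have := Algebra.isMulCommutative_adjoin ℂ hc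
  let φ : MvPolynomial (Fin N) ℂ →ₐ[ℂ] Algebra.adjoin ℂ (Set.range D) :=
    MvPolynomial.aeval (fun j : Fin N => (⟨D j, Algebra.subset_adjoin ⟨j, rfl⟩⟩ :
      Algebra.adjoin ℂ (Set.range D)))
  refine ⟨(Algebra.adjoin ℂ (Set.range D)).val.comp φ, fun j => ?_⟩
  have h1 : φ (MvPolynomial.X j) = ⟨D j, Algebra.subset_adjoin ⟨j, rfl⟩⟩ :=
    MvPolynomial.aeval_X _ _
  rw [AlgHom.comp_apply, h1]
  rfl

theorem exists_theta (N : ℕ) : ∃ θ : MvPolynomial (Fin N) ℂ →ₐ[ℂ] Module.End ℂ (Sm N),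
    ∀ j, θ (MvPolynomial.X j) = DD j :=
  exists_theta' DD DD_comm

theorem t_rep : S_REP := by
  intro N
  obtain ⟨θ, hθ⟩ := exists_theta N
  have h0 : mulL (gS (0 : Fin N → ℕ)) (contDiff_gS 0) = 1 := by
    apply LinearMap.ext
    intro F
    apply Subtype.ext
    funext ξ
    change gS 0 ξ * F.1 ξ = F.1 ξ
    simp [gS]
  have hadd : ∀ S S' : Fin N → ℕ, mulL (gS (S + S')) (contDiff_gS (S + S')) =
      mulL (gS S) (contDiff_gS S) * mulL (gS S') (contDiff_gS S') := by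
    intro S S'
    apply LinearMap.ext
    intro F
    apply Subtype.ext
    funext ξ
    change gS (S + S') ξ * F.1 ξ = gS S ξ * (gS S' ξ * F.1 ξ)
    unfold gS
    simp only [Pi.add_apply, pow_add, Finset.prod_mul_distrib]
    ring
  have hcomm : ∀ (S : Fin N → ℕ) (P : MvPolynomial (Fin N) ℂ),
      mulL (gS S) (contDiff_gS S) * θ P = θ (shiftP S P) * mulL (gS S) (contDiff_gS S) := by
    intro S P
    induction P using MvPolynomial.induction_on with
    | C a =>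
      have h1 : shiftP S (MvPolynomial.C a) = MvPolynomial.C a := by
        unfold shiftP
        rw [MvPolynomial.aeval_C]
        rfl
      rw [h1]
      have h2 : θ (MvPolynomial.C a) = algebraMap ℂ _ a := by
        rw [← MvPolynomial.algebraMap_eq, AlgHom.commutes]
      rw [h2]
      exact (Algebra.commutes a _).symm
    | add p q hp hq =>
      rw [map_add, map_add, map_add, mul_add, add_mul, hp, hq]
    | mul_X p j hp =>
      rw [map_mul, map_mul, map_mul, ← mul_assoc, hp, mul_assoc, hθ, DD_mul, ← mul_assoc]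
      congr 2
      unfold shiftP
      rw [MvPolynomial.aeval_X, map_add, hθ]
      congr 1
      rw [← MvPolynomial.algebraMap_eq, AlgHom.commutes]
  exact ⟨⟨θ, fun S => mulL (gS S) (contDiff_gS S), h0, hadd, hcomm⟩, fun j => hθ j,
    fun S F ξ => rfl⟩

end Pool.Agent.W918.WH
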