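import Pool.Agent.W680.WH.Stm

set_option autoImplicit false
set_option linter.all false

open scoped ComplexConjugate InnerProductSpace
open ContinuousLinearMap Filter

namespace Pool.Agent.W918.WH

open Pool.Agent.W680.WH

theorem irr_holds (h1 : S_OPA) (h2 : S_OPC) : S_IRR := by
  intro A hAZ hAZs
  obtain ⟨⟨-, -, hz1, hz2⟩, -, ⟨hZe, -, hZ2e, -, -, -⟩, -⟩ := h1
  obtain ⟨c1, c2, c3, c4, c5, c6, c7, c8, c9, c10, c11, c12, c13, c14, c15, c16, c17, c18⟩ := h2
  have hAZ2 : A * Z2 = Z2 * A := by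
    calc A * Z2 = (Z2 * Zs) * A * Z2 := by rw [hz1, one_mul]
      _ = Z2 * (Zs * A) * Z2 := by simp only [mul_assoc]
      _ = Z2 * (A * Zs) * Z2 := by rw [hAZs]
      _ = Z2 * A * (Zs * Z2) := by simp only [mul_assoc]
      _ = Z2 * A := by rw [hz2, mul_one]
  have e1 : A (Z2 (eb 0)) = Z2 (A (eb 0)) := by
    have := congrArg (fun B : E →L[ℂ] E => B (eb 0)) hAZ2
    exact this
  have e2 : A (Z (eb 0)) = Z (A (eb 0)) := by
    have := congrArg (fun B : E →L[ℂ] E => B (eb 0)) hAZ
    exact this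
  rw [hZ2e 0, map_smul] at e1
  rw [hZe 0] at e2
  rw [e2] at e1
  have key : ∀ m : ℤ, m ≠ 1 → co (A (eb 0)) (m - 1) = 0 := by
    intro m hm
    have e3 := congrArg (fun f => co f m) e1
    rw [c6, c2, c4] at e3
    have hne : (4 * (m : ℂ) - 1) ≠ 0 := by
      intro h
      have h' : ((4 * m - 1 : ℤ) : ℂ) = ((0 : ℤ) : ℂ) := by
        push_cast
        exact h
      have := Int.cast_injective h'
      omega
    have hne2 : ((m : ℂ) - 1) ≠ 0 := by
      intro h
      have h' : ((m - 1 : ℤ) : ℂ) = ((0 : ℤ) : ℂ) := by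
        push_cast
        exact h
      have := Int.cast_injective h'
      omega
    have e4 : ((4 * (((0 : ℤ) : ℂ)) + 1) / (4 * (((0 : ℤ) : ℂ)) + 3)) = (1 : ℂ) / 3 := by
      push_cast
      norm_num
    rw [e4] at e3
    field_simp at e3
    have e5 : ((m : ℂ) - 1) * co (A (eb 0)) (m - 1) = 0 := by
      linear_combination (-1 / 8 : ℂ) * e3
    rcases mul_eq_zero.mp e5 with h | h
    · exact absurd h hne2
    · exact h
  refine ⟨co (A (eb 0)) 0, ?_⟩
  apply c18 _ _ hAZ
  · rw [smul_mul_assoc, mul_smul_comm, one_mul, mul_one]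
  · apply c9
    intro n
    rw [ContinuousLinearMap.smul_apply, c6, ContinuousLinearMap.one_apply, c1]
    by_cases hn : n = 0
    · rw [if_pos hn, hn, mul_one]
    · rw [if_neg hn, mul_zero]
      have := key (n + 1) (by omega)
      simpa using this

end Pool.Agent.W918.WH
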